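import Pool.Agent.W670.ML.Defs

set_option autoImplicit false

namespace Pool.Agent.W71.ML

open Pool.Agent.W670.ML Equiv.Perm

theorem card_le_sum {N : ℕ} (t : Equiv.Perm (Fin N)) :
    Multiset.card t.cycleType ≤ t.cycleType.sum := by
  have h := Multiset.card_nsmul_le_sum (s := t.cycleType) (a := 1)
    (fun x hx => by
      have := Equiv.Perm.two_le_of_mem_cycleType hx
      omega)
  simpa using h

theorem ib : S_IB := by
  classical
  intro n N f hf g τ h
  let e : Fin n ≃ {y // y ∈ Set.range f} := Equiv.ofInjective f hf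
  have he : ∀ a, ((e a : {y // y ∈ Set.range f}) : Fin N) = f a := fun a => rfl
  let t1 : Equiv.Perm (Fin N) := g.extendDomain e
  have h1 : ∀ a, t1 (f a) = f (g a) := by
    intro a
    have := Equiv.Perm.extendDomain_apply_image g e a
    simpa [he] using this
  have h1' : ∀ x, x ∉ Set.range f → t1 x = x := fun x hx =>
    Equiv.Perm.extendDomain_apply_not_subtype g e hx
  have hct : t1.cycleType = g.cycleType := Equiv.Perm.cycleType_extendDomain e
  have hd : Equiv.Perm.Disjoint t1 (t1⁻¹ * τ) := by
    intro x
    by_cases hx : x ∈ Set.range f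
    · right
      obtain ⟨a, rfl⟩ := hx
      rw [Equiv.Perm.mul_apply, h a, ← h1 a]
      simp
    · left
      exact h1' x hx
  have hτ : τ = t1 * (t1⁻¹ * τ) := by group
  have hc : τ.cycleType = t1.cycleType + (t1⁻¹ * τ).cycleType := by
    conv_lhs => rw [hτ]
    exact hd.cycleType_mul
  have c1 := card_le_sum t1
  have c2 := card_le_sum (t1⁻¹ * τ)
  unfold ind
  rw [hc, ← hct, Multiset.sum_add, Multiset.card_add]
  omega

end Pool.Agent.W71.ML

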